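import Pool.Agent.helper97.AS.Spec

set_option autoImplicit false

namespace Pool.Agent.helper97.AS

open Pool.Agent.helper20.LB (Step F IsSq Same Bd co)

theorem UNI_mono (f : ℤ → ℤ) (h : Step f) (x : ℤ) (n : ℕ) : f x ≤ f (x + n) ∧ f (x + n) ≤ f x + n := by
  induction n with
  | zero => simp
  | succ n ih =>
    have h1 := h (x + n)
    push_cast
    rw [← add_assoc]
    omega

theorem UNI_mono2 (f : ℤ → ℤ) (h : Step f) (x y : ℤ) (hxy : x ≤ y) : f x ≤ f y ∧ f y ≤ f x + (y - x) := by
  have h1 := UNI_mono f h x (y - x).toNat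
  have h2 : ((y - x).toNat : ℤ) = y - x := Int.toNat_of_nonneg (by omega)
  rw [h2] at h1
  have h3 : x + (y - x) = y := by ring
  rw [h3] at h1
  exact h1

theorem UNI_step (f : ℤ → ℤ) (h : Step f) : Step (co f) := by
  intro x
  have := h x
  unfold co
  omega

theorem UNI_per (f : ℤ → ℤ) (p τ : ℤ) (h : Per f p τ) : Per (co f) p (p - τ) := by
  refine ⟨UNI_step f h.1, h.2.1, ?_⟩
  intro x
  have := h.2.2 x
  unfold co
  omega

theorem UNI (hHALF : HALF_stmt) (hONE : ONE_stmt) : UNI_stmt := by
  intro f M τ hP hM hM2 hT
  have hS := hP.1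
  have hper := hP.2.2
  have e1 : f M = f (-1) + τ := by
    have h1 := hper (-1)
    have h2 : (-1 : ℤ) + (M + 1) = M := by ring
    rw [h2] at h1
    exact h1
  have hTT : TT f 0 M = f (M + 1) - f (-1) := by
    unfold TT
    norm_num
  have hτ0 : 0 ≤ τ ∧ τ ≤ M + 1 := by
    have h1 := UNI_mono2 f hS 0 (0 + (M + 1)) (by omega)
    have h2 := hper 0
    omega
  have hstep := hS M
  rcases (show f (M + 1) = f M + 1 ∨ f (M + 1) = f M by omega) with hb | ha
  · -- the letter `M+1` is `b`
    left
    have hT2 : TT f 0 M = τ + 1 := by omega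
    rcases (show τ = M + 1 ∨ τ < M + 1 by omega) with h0 | h0
    · right; right
      rw [hT2, h0]
      have k1 : (kk (M + 1 + 1) : ℤ) = (M + 1) / 2 := by
        unfold kk
        rw [Int.toNat_of_nonneg (by omega)]
        congr 1
        ring
      rw [k1]
      omega
    · right; left
      obtain ⟨t, ht⟩ : ∃ t, M + 1 - τ = 2 * t := ⟨(M + 1 - τ) / 2, by omega⟩
      have ht1 : 1 ≤ t := by omega
      have hP2 := UNI_per f (M + 1) τ hP
      rw [ht] at hP2
      obtain ⟨s, hs⟩ := hHALF (co f) (M + 1) t 0 hP2 ht1
      left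
      refine ⟨t, s, ?_, ?_⟩
      · unfold kk
        rw [Int.toNat_of_nonneg (by omega)]
        omega
      · have e : (0 : ℤ) + 2 * (M + 1) - 1 = 0 + (M + 1) + M := by ring
        rw [e] at hs
        exact hs
  · have hT2 : TT f 0 M = τ := by omega
    by_cases hex : ∃ r y : ℤ, 1 ≤ r ∧ 2 * r ≤ M + 1 ∧ -(2 * r) ≤ y ∧ y ≤ -1 ∧ f (y + 2 * r) + f y - 2 * f (y + r) = 0
    · left
      obtain ⟨r, y, hr1, hr2, hy1, hy2, h0⟩ := hex
      have hr3 : 2 * r < M + 1 := by
        rcases lt_or_eq_of_le hr2 with h | h
        · exact h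
        · exfalso
          have h1 := hper y
          rw [← h] at h1
          omega
      have p1 := hper y
      have p2 := hper (y + (M + 1))
      have p3 := hper (y + r)
      have m1 := UNI_mono2 f hS (y + 2 * r) (y + (M + 1)) (by omega)
      set p := M + 1 with hp
      -- the square
      have c1 : y + r + p + (p - r) = y + p + p := by ring
      have c2 : y + r + p - (p - r) = y + 2 * r := by ring
      have hF : F f (y + r + p) (p - r) = 0 := by
        unfold F
        rw [c1, c2]
        omega
      have hSq : Sq f 0 (0 + p + M) (y + r + p, p - r) := by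
        refine ⟨?_, ?_, ?_, hF⟩
        · show 1 ≤ p - r
          omega
        · show 0 ≤ y + r + p - (p - r)
          omega
        · show y + r + p + (p - r) ≤ 0 + p + M
          omega
      have hc := hS (y + r + p)
      rcases (show f (y + r + p + 1) = f (y + r + p) + 1 ∨ f (y + r + p + 1) = f (y + r + p) by omega) with hcb | hca
      · left
        left
        refine ⟨τ - (f (y + r) - f y), (y + r + p, p - r), ?_, hSq, hcb, ?_⟩
        · rw [hT2]
          unfold kk
          rw [Int.toNat_of_nonneg (by omega)]
          omega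
        · show f (y + r + p + (p - r)) - f (y + r + p) = _
          rw [c1]
          omega
      · right; left
        left
        refine ⟨(p - r) - (τ - (f (y + r) - f y)), (y + r + p, p - r), ?_, ?_, ?_, ?_⟩
        · rw [hT2]
          unfold kk
          rw [Int.toNat_of_nonneg (by omega)]
          omega
        · refine ⟨hSq.1, hSq.2.1, hSq.2.2.1, ?_⟩
          show F (co f) (y + r + p) (p - r) = 0
          unfold F at hF ⊢
          unfold co
          omega
        · show co f (y + r + p + 1) = co f (y + r + p) + 1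
          unfold co
          omega
        · show co f (y + r + p + (p - r)) - co f (y + r + p) = _
          unfold co
          rw [c1]
          omega
    · right
      refine ⟨ha, ?_⟩
      apply hONE f M τ hP hM hM2 ha
      intro r y h1 h2 h3 h4 h5
      exact hex ⟨r, y, h1, h2, h3, h4, h5⟩

end Pool.Agent.helper97.AS
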